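import Pool.Agent.Helper346.Cay.CayDeg
import Pool.Agent.Helper346.Cay.Final

set_option autoImplicit false

namespace Pool.Agent.Results.MP_88d955_ag.CayleyDegreeSL9

open Pool.Agent.Helper346.Cay

/-- The Cayley degree of the simple algebraic group `SL_9` is greater than two, over every
algebraically closed field of characteristic zero. -/
theorem result : ∀ (k : Type*) [Field k] [IsAlgClosed k] [CharZero k],
    2 < cayleyDegree 9 k :=
  fun k _ _ _ => two_lt_nine k

end Pool.Agent.Results.MP_88d955_ag.CayleyDegreeSL9
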